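import Mathlib

set_option autoImplicit false

namespace Pool.Agent.Results.MP_41e757_co.Skew

open Finset AddMonoidAlgebra

abbrev G (s : ℕ) := Fin s → ZMod 2

noncomputable def v {S : Type*} [CommRing S] {s : ℕ} (Y : Fin s → S) : S[G s] :=
  ∑ j, (single 0 (Y j) + single (Pi.single j 1) (Y j))

noncomputable def P {S : Type*} [CommRing S] {n s : ℕ} (Y : Fin n → Fin s → S) (c : Fin n → S) :
    S[G s] := ∏ k, (1 + single 0 (c k) * v (Y k))

theorem vv {S : Type*} [CommRing S] [CharP S 2] {s : ℕ} (Y : Fin s → S) : v Y * v Y = 0 := by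
  have : CharP S[G s] 2 := charP_of_injective_ringHom (f := algebraMap S S[G s])
    (fun a b e => by simpa using congrArg (fun x => x.coeff 0) e) 2
  rw [v, CharTwo.sum_mul_self]
  refine sum_eq_zero fun j _ => ?_
  have : (Pi.single j 1 + Pi.single j 1 : G s) = 0 := by
    rw [← Pi.single_add]; simp [CharTwo.add_self_eq_zero]
  rw [CharTwo.add_mul_self, single_mul_single, single_mul_single, this, add_zero,
    CharTwo.add_self_eq_zero]

theorem PP {S : Type*} [CommRing S] [CharP S 2] {n s : ℕ} (Y : Fin n → Fin s → S)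
    (a b : Fin n → S) : P Y a * P Y b = P Y (a + b) := by
  rw [P, P, P, ← prod_mul_distrib]
  refine prod_congr rfl fun k _ => ?_
  rw [Pi.add_apply, single_add]
  linear_combination (single 0 (a k) * single 0 (b k)) * vv (Y k)

theorem low {S : Type*} [CommRing S] {n s : ℕ} (Y : Fin n → Fin s → S) (c : Fin n → S)
    (D : Finset (Fin n)) (h : ∀ k ∉ D, c k = 0) (hD : D.card < s) : (P Y c).coeff 1 = 0 := by
  classical
  rw [P, ← prod_subset (subset_univ D) fun k _ hk => by simp [h k hk]]
  by_contra e
  have k := sup_support_coeff_finsetProd_le (R := S) (degb := fun g : G s => hammingNorm g)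
    (by simp) (fun a b => by
      simp only [hammingNorm]
      refine (card_le_card fun i hi => ?_).trans (card_union_le _ _)
      by_contra k
      simp_all) D fun k => 1 + single 0 (c k) * v (Y k)
  have l := le_sup (f := fun g : G s => hammingNorm g) (Finsupp.mem_support_iff.2 e)
  have m : hammingNorm (1 : G s) = s := by simp [hammingNorm]
  have o := sum_le_card_nsmul D (fun k => (1 + single 0 (c k) * v (Y k) : S[G s]).coeff.support.sup
    fun g : G s => hammingNorm g) 1 fun k _ => Finset.sup_le fun g hg => by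
      by_contra q
      have g0 : g ≠ 0 := by rintro rfl; simp at q
      have g1 : ∀ j, g ≠ Pi.single j 1 := by
        rintro j rfl
        refine q (card_le_one.2 fun a ha b hb => ?_)
        simp_all [Pi.single_apply]
      simp [v, one_def, Finsupp.single_apply, g0.symm, fun j => (g1 j).symm,
        Finsupp.finsetSum_apply] at hg
  simp only [smul_eq_mul] at o
  omega

theorem top {S : Type*} [CommRing S] {n s : ℕ} (u : Fin s → Fin n) (hu : Function.Injective u)
    (c : Fin n → S) : (P (fun k j => if k = u j then 1 else 0) c).coeff 1 = ∏ j, c (u j) := by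
  classical
  have : P (fun k j => if k = u j then 1 else 0) c =
      ∏ j, (single (Pi.single j 1) (c (u j)) + single 0 (1 + c (u j))) := by
    rw [P, ← prod_subset (subset_univ (univ.image u)) fun k _ hk => by
      have : ∀ j, k ≠ u j := fun j e => hk (by simp [e])
      simp [v, this], prod_image fun i _ j _ e => hu e]
    refine prod_congr rfl fun j _ => ?_
    rw [v, sum_eq_single j (fun i _ h => by simp [hu.eq_iff, h.symm]) (by simp)]
    simp only [if_true, mul_add, single_mul_single, single_add, one_def, mul_one, zero_add]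
    ring
  rw [this, prod_add, coeff_sum, Finsupp.finsetSum_apply, sum_eq_single univ]
  · have : (∑ j : Fin s, Pi.single j 1 : G s) = 1 := by ext i; simp [Pi.single_apply]
    simp [this]
  · intro T _ hT
    obtain ⟨j, hj⟩ : ∃ j, j ∉ T := by by_contra! k; exact hT (eq_univ_of_forall k)
    have : (∑ j ∈ T, Pi.single j 1 : G s) ≠ 1 := fun e => by
      simpa [Pi.single_apply, hj] using congrFun e j
    simp [single_mul_single, this, -single_add]
  · simp

theorem tri {R : Type*} [CommRing R] [IsDomain R] {m s : ℕ} (p q : Fin m → R[G s])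
    (e1 : ∀ i j, i < j → (p i * q j).coeff 1 = 0) (e2 : ∀ i, (p i * q i).coeff 1 ≠ 0) :
    m ≤ 2 ^ s := by
  classical
  have li : LinearIndependent R fun i => (coeffLinearEquiv R (p i)) := by
    refine (Fintype.linearIndependent_iff (R := R)).2 fun g hg => ?_
    by_contra! k
    obtain ⟨j, hj, hm⟩ := exists_max_image (univ.filter fun i => g i ≠ 0) id
      (by simpa [filter_nonempty_iff] using k)
    have : ∑ i, g i • p i = 0 := (coeffLinearEquiv R).injective (by simpa using hg)
    have := congrArg (fun x => (x * q j).coeff 1) this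
    simp only [sum_mul, smul_mul_assoc, coeff_sum, Finsupp.finsetSum_apply, coeff_smul,
      Finsupp.smul_apply, smul_eq_mul, zero_mul, coeff_zero, Finsupp.zero_apply] at this
    rw [sum_eq_single j] at this
    · exact mul_ne_zero (mem_filter.1 hj).2 (e2 j) this
    · intro i _ hi
      by_cases r : g i = 0
      · simp [r]
      · rw [e1 i j (lt_of_le_of_ne (hm i (by simpa using r)) hi), mul_zero]
    · simp
  simpa using li.fintype_card_le_finrank

theorem upper {X : Type} [DecidableEq X] (t m n : ℕ) (a b : Fin m → Fin n → X)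
    (h1 : ∀ i, t + 1 ≤ hammingDist (a i) (b i)) (h2 : ∀ i j, i < j → hammingDist (a i) (b j) ≤ t) :
    m ≤ 2 ^ (t + 1) := by
  let K := MvPolynomial X (ZMod 2)
  let R := MvPolynomial (Fin n × Fin (t + 1)) K
  let Y : Fin n → Fin (t + 1) → R := fun k j => .X (k, j)
  let z : (Fin n → X) → Fin n → R := fun x k => .C (.X (x k))
  have e1 : ∀ i j, i < j → (P Y (z (a i)) * P Y (z (b j))).coeff 1 = 0 := fun i j h => by
    rw [PP]
    refine low _ _ {k | a i k ≠ b j k} (fun k hk => ?_) (Nat.lt_succ_of_le (h2 i j h))
    simp only [mem_filter, mem_univ, true_and, not_not] at hk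
    simp [z, hk, CharTwo.add_self_eq_zero]
  have e2 : ∀ i, (P Y (z (a i)) * P Y (z (b i))).coeff 1 ≠ 0 := fun i e => by
    obtain ⟨D, hD, hc⟩ := exists_subset_card_eq (h1 i)
    let u := D.orderEmbOfFin hc
    let f : R →+* K := MvPolynomial.eval fun p => if p.1 = u p.2 then 1 else 0
    have := congrArg f e
    rw [PP, ← coeff_mapRingHom, map_zero] at this
    have k := top u u.injective fun k => (.X (a i k) + .X (b i k) : K)
    have l : mapRingHom _ f (P Y (z (a i) + z (b i))) =
        P (fun k j => if k = u j then 1 else 0) fun k => (.X (a i k) + .X (b i k) : K) := by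
      have a1 : ∀ x, f (.C x) = x := fun x => MvPolynomial.eval_C x
      have a2 : ∀ p, f (.X p) = if p.1 = u p.2 then 1 else 0 := fun p => MvPolynomial.eval_X p
      simp [P, v, z, Y, a1, a2]
    rw [l, k, prod_eq_zero_iff] at this
    obtain ⟨j, -, hj⟩ := this
    rw [CharTwo.add_eq_zero] at hj
    exact (mem_filter.1 (hD (D.orderEmbOfFin_mem hc j))).2 (MvPolynomial.X_injective hj)
  exact tri (fun i => P Y (z (a i))) (fun i => P Y (z (b i))) e1 e2

theorem result (X : Type) [DecidableEq X] [Nontrivial X] (t : ℕ) :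
    IsGreatest {m : ℕ | ∃ n, t + 1 ≤ n ∧ ∃ a b : Fin m → Fin n → X,
      (∀ i, t + 1 ≤ hammingDist (a i) (b i)) ∧ ∀ i j, i < j → hammingDist (a i) (b j) ≤ t}
      (2 ^ (t + 1)) := by
  refine ⟨⟨t + 1, le_rfl, ?_⟩, fun m ⟨n, _, a, b, h1, h2⟩ => upper t m n a b h1 h2⟩
  obtain ⟨x, y, h⟩ := exists_pair_ne X
  let e : Fin (2 ^ (t + 1)) ≃ (Fin (t + 1) → Bool) := (Fintype.equivFinOfCardEq (by simp)).symm
  refine ⟨fun i k => if e i k then x else y, fun i k => if e i k then y else x, fun i => ?_,
    fun i j l => ?_⟩
  · rw [hammingDist, filter_true_of_mem fun k _ => by dsimp only; split_ifs <;> simp [h, h.symm]]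
    simp
  · obtain ⟨k, hk⟩ := Function.ne_iff.1 (e.injective.ne l.ne)
    have := card_lt_card (filter_ssubset (s := univ) (p := fun k =>
      (if e i k then x else y) ≠ if e j k then y else x) |>.2 ⟨k, mem_univ _, by
        cases p : e i k <;> cases q : e j k <;> simp_all⟩)
    simpa [hammingDist, Nat.lt_succ_iff] using this

end Pool.Agent.Results.MP_41e757_co.Skew
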